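import Pool.Agent.W_MP_3283e1_h19.Cross

set_option autoImplicit false

/-- The Birch and Swinnerton-Dyer products of four curves come within `O(x^{-1/2})` of the constant
of Goldfeld for arbitrarily large `x`. -/
theorem Pool.Agent.Results.MP_3283e1_nt.NearLimit.result
    (a : ℤ) (h : a = -1 ∨ a = 4 ∨ a = 1 ∨ a = -4) :
    ∃ L : ℂ → ℂ, Differentiable ℂ L ∧
      (∀ s : ℂ, 3 / 2 < s.re → HasProd (fun p : {p : ℕ // p.Prime ∧ p ≠ 2} =>
        (1 - ((p : ℂ) + 1 - (W3283e1.npts a 0 p : ℂ)) * (p : ℂ) ^ (-s)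
          + (p : ℂ) ^ (1 - 2 * s))⁻¹) (L s)) ∧
      (L 1).im = 0 ∧ 0 < (L 1).re ∧
      ∀ X : ℝ, ∃ x : ℝ, X ≤ x ∧
        |W3283e1.bsdProd a 0 x - Real.sqrt 2 / (L 1).re| ≤
          4 * (Real.sqrt 2 / (L 1).re) / Real.sqrt x :=
  W3283f.cross4 a h
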