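import Pool.Agent.W_MP_3283e1_h19.FinG

set_option autoImplicit false

/-- For the curves `y² = x³ ± k² x` the product is not asymptotic to `A (log x)^ρ` with relative
error `O(1/log x)`, whatever `A > 0` and `ρ` are. -/
theorem Pool.Agent.Results.MP_3283e1_nt.NoFastConvergence.result
    (k : ℕ) (hk : 0 < k) (c : ℤ) (hc : c = 1 ∨ c = -1) (A ρ : ℝ) (hA : 0 < A) (K X : ℝ) :
    ∃ x : ℝ, X ≤ x ∧
      K / Real.log x ≤ |W3283e1.bsdProd (c * k ^ 2) 0 x / (A * (Real.log x) ^ ρ) - 1| :=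
  W3283f.main_fam k hk c hc A ρ hA K X
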