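import Pool.Agent.W_MP_3283e1_h19.FinH

set_option autoImplicit false

/-- A one sided subexponential bound for the Birch and Swinnerton-Dyer product of
`y² = x³ ± k² x` excludes zeros of the L-function to the right. -/
theorem Pool.Agent.Results.MP_3283e1_nt.OneSidedRH.result
    (k : ℕ) (hk : 0 < k) (c : ℤ) (hc : c = 1 ∨ c = -1) :
    ∃ L : ℂ → ℂ, Differentiable ℂ L ∧
      (∀ s : ℂ, 3 / 2 < s.re → HasProd (fun p : {p : ℕ // p.Prime ∧ ¬ p ∣ 2 * k} =>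
        (1 - ((p : ℂ) + 1 - (W3283e1.npts (c * k ^ 2) 0 p : ℂ)) * (p : ℂ) ^ (-s)
          + (p : ℂ) ^ (1 - 2 * s))⁻¹) (L s)) ∧
      ∀ δ : ℝ, 0 < δ →
        ((∃ X : ℝ, ∀ x : ℝ, X ≤ x → W3283e1.bsdProd (c * k ^ 2) 0 x ≤ Real.exp (x ^ δ)) ∨
          ((k ≤ 2 ∨ ∀ σ : ℝ, 1 < σ → L σ ≠ 0) ∧
            ∃ X : ℝ, ∀ x : ℝ, X ≤ x →
              Real.exp (-(x ^ δ)) ≤ W3283e1.bsdProd (c * k ^ 2) 0 x)) →
        ∀ s : ℂ, 1 + δ < s.re → L s ≠ 0 :=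
  W3283f.main_rh k hk c hc
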