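import Pool.Agent.W_3283e1_h53.FinH2
import Pool.Agent.W_3283e1_sm.Main

set_option autoImplicit false

/-- One sided local conditions for the Birch and Swinnerton-Dyer product `P` of `y² = x³ + c k² x`,
`c = ±1`.  `L` is the L-function (Euler factors at the primes not dividing `2k`), `r`, `l` its order and
leading coefficient at `1`, `C = √2 e^{rγ}/|l|`.  If `P` increases by at most a factor `B` on the intervals
`[x, λ x]`, then the Riemann hypothesis holds and `P` is within every factor `B' > B` of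
`C (log x)^r`; the same for decrease if `L` has no real zero beyond `1`.  The asymptotic
`P ~ C (log x)^r` is equivalent to the one sided condition with all `B > 1`. -/
theorem W3283old.one_sided_variation
    (k : ℕ) (hk : 0 < k) (c : ℤ) (hc : c = 1 ∨ c = -1) :
    ∃ L : ℂ → ℂ, Differentiable ℂ L ∧
      (∀ s : ℂ, 3 / 2 < s.re → HasProd (fun p : {p : ℕ // p.Prime ∧ ¬ p ∣ 2 * k} =>
        (1 - ((p : ℂ) + 1 - (W3283e1.npts (c * k ^ 2) 0 p : ℂ)) * (p : ℂ) ^ (-s)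
          + (p : ℂ) ^ (1 - 2 * s))⁻¹) (L s)) ∧
      ∃ (r : ℕ) (l : ℝ), l ≠ 0 ∧
        Filter.Tendsto (fun s : ℂ => L s / (s - 1) ^ r) (nhdsWithin 1 {1}ᶜ) (nhds (l : ℂ)) ∧
        (∀ B lam X : ℝ, 1 < lam →
          ((∀ x y : ℝ, X ≤ x → x ≤ y → y ≤ lam * x →
              W3283e1.bsdProd (c * k ^ 2) 0 y ≤ B * W3283e1.bsdProd (c * k ^ 2) 0 x) ∨
            ((∀ σ : ℝ, 1 < σ → L σ ≠ 0) ∧
              ∀ x y : ℝ, X ≤ x → x ≤ y → y ≤ lam * x →
                W3283e1.bsdProd (c * k ^ 2) 0 x ≤ B * W3283e1.bsdProd (c * k ^ 2) 0 y)) →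
          (∀ s : ℂ, 1 < s.re → L s ≠ 0) ∧
          ∀ B' : ℝ, B < B' → ∃ X' : ℝ, ∀ x : ℝ, X' ≤ x →
            Real.sqrt 2 * Real.exp (r * Real.eulerMascheroniConstant) / |l| *
              (Real.log x) ^ r ≤ B' * W3283e1.bsdProd (c * k ^ 2) 0 x ∧
            W3283e1.bsdProd (c * k ^ 2) 0 x ≤ B' *
              (Real.sqrt 2 * Real.exp (r * Real.eulerMascheroniConstant) / |l| *
                (Real.log x) ^ r)) ∧
        (Filter.Tendsto (fun x : ℝ => W3283e1.bsdProd (c * k ^ 2) 0 x /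
            (Real.sqrt 2 * Real.exp (r * Real.eulerMascheroniConstant) / |l| *
              (Real.log x) ^ r)) Filter.atTop (nhds 1) ↔
          ∀ B : ℝ, 1 < B → ∃ lam X : ℝ, 1 < lam ∧
            ∀ x y : ℝ, X ≤ x → x ≤ y → y ≤ lam * x →
              W3283e1.bsdProd (c * k ^ 2) 0 y ≤ B * W3283e1.bsdProd (c * k ^ 2) 0 x) ∧
        (((c = -1 ∧ k ≤ 7) ∨ (c = 1 ∧ k ≤ 4)) → ∀ σ : ℝ, 1 < σ → L σ ≠ 0) := by
  obtain ⟨n, f, i, j, L, r, l, V, h⟩ := W3283g.setup k hk c hc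
  have hC : 0 < Real.sqrt 2 * Real.exp (r * Real.eulerMascheroniConstant) / |l| :=
    div_pos (mul_pos (Real.sqrt_pos.2 two_pos) (Real.exp_pos _)) (abs_pos.2 h.hl)
  have hm := fun (B lam X : ℝ) (hl : 1 < lam) hyp =>
    W3283g.main_sv k c n f i j L r l V h B lam X hl hyp
  refine ⟨L, h.hL, h.hprod, r, l, h.hl, h.hlim, fun B lam X hl hyp => hm B lam X hl ?_, ?_, ?_⟩
  · rcases hyp with h1 | h1
    · exact Or.inl h1
    · exact Or.inr ⟨Or.inr h1.1, h1.2⟩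
  · exact W3283g.sv_iff (W3283e1.bsdProd (c * k ^ 2) 0) (W3283g.bsd_pos _ _) _ hC r
      (fun B lam X hl hh => (hm B lam X hl (Or.inl hh)).2)
  · intro hsm σ hσ
    have h1 := W3283s.no_real k c L ⟨hk, hc, h.hL, h.hprod⟩ hsm (σ - 1) (by linarith)
    have h2 : (1 : ℂ) + ((σ - 1 : ℝ) : ℂ) = (σ : ℂ) := by push_cast; ring
    rwa [h2] at h1
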