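import Pool.Agent.W_3283e1_sm.Main

set_option autoImplicit false

/-- The Birch and Swinnerton-Dyer asymptotic with a smooth cut-off, for all the curves
`E : y² = x³ ± k² x`.  `L` is the L-function (Euler factors at the primes not dividing `2k`), `r`, `l`
its order and leading coefficient at `1`, and
`S(X) = Σ_p Re (1/Γ(2 + e^{iθ} log p / X)) (log (#E(F_p)/p) + ρ log (1 - 1/p))`.
For `|θ| < π/2` the sums `S(X)` converge to `λ` if and only if `ρ = r`, `λ = log (√2/|l|)` and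
`L(1 + x e^{iθ}) ≠ 0` for all `x > 0`; the last condition holds for all `θ` outside a countable set,
the same for all the curves, and for `θ = 0` if `k` is small. -/
theorem W3283old.smooth_cutoff :
    ∃ Z : Set ℝ, Z.Countable ∧ ∀ (k : ℕ) (_ : 0 < k) (c : ℤ) (_ : c = 1 ∨ c = -1),
      ∃ L : ℂ → ℂ, Differentiable ℂ L ∧
        (∀ s : ℂ, 3 / 2 < s.re → HasProd (fun p : {p : ℕ // p.Prime ∧ ¬ p ∣ 2 * k} =>
          (1 - ((p : ℂ) + 1 - (W3283e1.npts (c * k ^ 2) 0 p : ℂ)) * (p : ℂ) ^ (-s)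
            + (p : ℂ) ^ (1 - 2 * s))⁻¹) (L s)) ∧
        ∃ (r : ℕ) (l : ℝ), l ≠ 0 ∧
          Filter.Tendsto (fun s : ℂ => L s / (s - 1) ^ r) (nhdsWithin 1 {1}ᶜ) (nhds (l : ℂ)) ∧
          (∀ θ : ℝ, |θ| < Real.pi / 2 → ∀ ρ lam : ℝ,
            (Filter.Tendsto (fun X : ℝ => ∑' p : Nat.Primes,
              ((Complex.Gamma (2 + Complex.exp (θ * Complex.I) *
                ((Real.log (p : ℕ) / X : ℝ) : ℂ)))⁻¹).re *
              ((if (p : ℕ) ∣ 2 * k then 0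
                else Real.log ((W3283e1.npts (c * k ^ 2) 0 p : ℝ) / (p : ℕ))) +
                ρ * Real.log (1 - 1 / ((p : ℕ) : ℝ)))) Filter.atTop (nhds lam) ↔
              (ρ = r ∧ lam = Real.log (Real.sqrt 2 / |l|)) ∧
                ∀ x : ℝ, 0 < x → L (1 + x * Complex.exp (θ * Complex.I)) ≠ 0)) ∧
          (∀ θ : ℝ, |θ| < Real.pi / 2 → θ ∉ Z →
            ∀ x : ℝ, 0 < x → L (1 + x * Complex.exp (θ * Complex.I)) ≠ 0) ∧
          (((c = -1 ∧ k ≤ 7) ∨ (c = 1 ∧ k ≤ 4)) → ∀ x : ℝ, 0 < x → L (1 + x) ≠ 0) := by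
  obtain ⟨Z, hZ, h⟩ := W3283s.exists_ZK
  refine ⟨Z, hZ, fun k hk c hc => ?_⟩
  obtain ⟨n, f, i, j, L, r, l, V, hS⟩ := W3283g.setup k hk c hc
  have hLK : W3283s.LK k c L := ⟨hk, hc, hS.hL, hS.hprod⟩
  refine ⟨L, hS.hL, hS.hprod, r, l, hS.hl, hS.hlim, fun θ hθ ρ lam => ?_, fun θ hθ hθZ => ?_,
    fun hsm => W3283s.no_real k c L hLK hsm⟩
  · exact W3283s.main_one k c L hLK r l hS.hl hS.hlim θ hθ ρ lam
  · exact h θ hθZ hθ k c L hLK
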