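import Pool.Agent.W_MP_3283e1_h19.FinH

set_option autoImplicit false

/-- Unbounded oscillation of the Birch and Swinnerton-Dyer product of the curves
`y² = x³ ± k² x` around its conjectured asymptotic, with the constant of Goldfeld. -/
theorem Pool.Agent.Results.MP_3283e1_nt.UnboundedOscillation.result
    (k : ℕ) (hk : 0 < k) (c : ℤ) (hc : c = 1 ∨ c = -1) :
    ∃ L : ℂ → ℂ, Differentiable ℂ L ∧
      (∀ s : ℂ, 3 / 2 < s.re → HasProd (fun p : {p : ℕ // p.Prime ∧ ¬ p ∣ 2 * k} =>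
        (1 - ((p : ℂ) + 1 - (W3283e1.npts (c * k ^ 2) 0 p : ℂ)) * (p : ℂ) ^ (-s)
          + (p : ℂ) ^ (1 - 2 * s))⁻¹) (L s)) ∧
      ∃ (r : ℕ) (l : ℝ), l ≠ 0 ∧
        Filter.Tendsto (fun s : ℂ => L s / (s - 1) ^ r) (nhdsWithin 1 {1}ᶜ) (nhds (l : ℂ)) ∧
        ∀ K : ℝ,
          (∀ X : ℝ, ∃ x : ℝ, X ≤ x ∧
            Real.sqrt 2 * Real.exp (r * Real.eulerMascheroniConstant) / |l| *
              (Real.log x) ^ r * (1 + K / Real.log x) ≤ W3283e1.bsdProd (c * k ^ 2) 0 x) ∧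
          ((k ≤ 2 ∨ ∀ σ : ℝ, 1 < σ → L σ ≠ 0) → ∀ X : ℝ, ∃ x : ℝ, X ≤ x ∧
            W3283e1.bsdProd (c * k ^ 2) 0 x ≤
              Real.sqrt 2 * Real.exp (r * Real.eulerMascheroniConstant) / |l| *
                (Real.log x) ^ r * (1 - K / Real.log x)) :=
  W3283f.main_up k hk c hc
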